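import Mathlib
import Pool.Agent.H925R3.DD.Stubs

/-! Bombieri-Vinogradov lower bound with residues `α` modulo `M` (task PRMSG of helper925, by
helper992, after task PRMS by helper227). -/

set_option autoImplicit false

namespace Pool.Agent.H992DD

open Finset Filter Topology
open Pool.Agent.H925R3.DC Pool.Agent.H925R3.DD Pool.Agent.H410R2

theorem prmsg_coprime (M : ℕ) (α e : ℤ) (hα : IsCoprime α (M : ℤ)) (he : e = 1 ∨ e = -1)
    (q s : ℕ) (h1 : (M : ℤ) ∣ (s : ℤ) - α) (h2 : (q : ℤ) ∣ (s : ℤ) + e) :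
    s.Coprime (M * q) := by
  apply Nat.Coprime.mul_right
  · obtain ⟨k, hk⟩ := h1
    rw [← Nat.isCoprime_iff_coprime]
    have : (s : ℤ) = α + (M : ℤ) * k := by linarith
    rw [this]
    exact hα.add_mul_left_left k
  · obtain ⟨k, hk⟩ := h2
    rw [← Nat.isCoprime_iff_coprime]
    have : (s : ℤ) = -e + (q : ℤ) * k := by linarith
    rw [this]
    have h3 : IsCoprime (-e) (q : ℤ) := by
      rcases he with rfl | rfl
      · exact isCoprime_one_left.neg_left
      · rw [neg_neg]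
        exact isCoprime_one_left
    exact h3.add_mul_left_left k

theorem prmsg : Pool.Agent.H925R3.DD.PRMSG := by
  intro hBV hPNT hPRMQ M α e hM hα he r hr δ hδ hδ'
  obtain ⟨X₁, h₁⟩ := hBV M hM 1 le_rfl δ hδ 2
  obtain ⟨X₃, h₃⟩ := hPRMQ δ hδ hδ'
  have h2 : ∀ᶠ X : ℝ in atTop, (1 / 2 : ℝ) < psiLog1 X / X :=
    hPNT.eventually (lt_mem_nhds (by norm_num))
  have h4 : ∀ᶠ X : ℝ in atTop, (16 * M : ℝ) ≤ Real.log X :=
    Real.tendsto_log_atTop.eventually (eventually_ge_atTop _)
  have h5 : ∀ᶠ X : ℝ in atTop, (M : ℝ) ≤ X ^ (1 / 4 : ℝ) :=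
    (tendsto_rpow_atTop (by norm_num : (0 : ℝ) < 1 / 4)).eventually (eventually_ge_atTop _)
  have hall := ((((eventually_ge_atTop X₁).and (eventually_ge_atTop X₃)).and
    (h2.and h4)).and (eventually_gt_atTop (0 : ℝ))).and (h5.and (eventually_ge_atTop (1 : ℝ)))
  obtain ⟨X₀, hX₀⟩ := eventually_atTop.mp hall
  refine ⟨X₀, fun X hX => ?_⟩
  obtain ⟨⟨⟨⟨hX1, hX3⟩, hX2, hX4⟩, hXpos⟩, hX5, hX6⟩ := hX₀ X hX
  have hM' : (0 : ℝ) < M := by exact_mod_cast hM
  have hlog : 0 < Real.log X := lt_of_lt_of_le (by positivity) hX4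
  set y : ℝ := X ^ (1 / 2 - δ) with hy
  have hypos : 0 < y := Real.rpow_pos_of_pos hXpos _
  have hpsi : X / 2 ≤ psiLog1 X := by
    rw [lt_div_iff₀ hXpos] at hX2
    linarith
  -- Bombieri-Vinogradov
  have hBV' := h₁ X hX1 r
  have hsub : QQ δ X ⊆ (Icc 1 ⌊X ^ (1 / 2 - δ)⌋₊).filter
      (fun q => Squarefree q ∧ (r q).Coprime (M * q)) := by
    intro q hq
    unfold QQ at hq
    rw [mem_filter] at hq ⊢
    have hMq : M < q := by
      have h6 : X ^ (1 / 4 : ℝ) ≤ X ^ (1 / 2 - 2 * δ) :=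
        Real.rpow_le_rpow_of_exponent_le hX6 (by linarith)
      have h7 : (M : ℝ) < q := lt_of_le_of_lt (hX5.trans h6) hq.2.2
      exact_mod_cast h7
    have hnd : ¬ q ∣ M := fun h => absurd (Nat.le_of_dvd hM h) (not_le.2 hMq)
    have h8 := hr q hq.2.1 hnd
    exact ⟨hq.1, hq.2.1.prime.squarefree, prmsg_coprime M α e hα he q (r q) h8.1 h8.2⟩
  have hsum : ∑ q ∈ QQ δ X,
      |psiLogAP X (M * q) (r q) - psiLog1 X / (Nat.totient (M * q) : ℝ)| ≤
        X / (Real.log X) ^ 2 := by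
    refine le_trans ?_ hBV'
    refine le_trans ?_ (sum_le_sum_of_subset_of_nonneg hsub ?_)
    · exact le_of_eq (sum_congr rfl fun q _ => by rw [one_pow, one_mul])
    · intro q _ _
      positivity
  have hterm : ∀ q ∈ QQ δ X, X / (2 * M * y) -
      |psiLogAP X (M * q) (r q) - psiLog1 X / (Nat.totient (M * q) : ℝ)| ≤
        psiLogAP X (M * q) (r q) := by
    intro q hq
    unfold QQ at hq
    rw [mem_filter, mem_Icc] at hq
    have hqpos : 0 < q := hq.1.1
    have hqy : (q : ℝ) ≤ y := (Nat.le_floor_iff hypos.le).mp hq.1.2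
    have htpos : 0 < Nat.totient (M * q) := Nat.totient_pos.mpr (Nat.mul_pos hM hqpos)
    have htpos' : (0 : ℝ) < Nat.totient (M * q) := by exact_mod_cast htpos
    have htle : (Nat.totient (M * q) : ℝ) ≤ M * y := by
      have h1 : (Nat.totient (M * q) : ℝ) ≤ (M * q : ℕ) := by
        exact_mod_cast Nat.totient_le (M * q)
      rw [Nat.cast_mul] at h1
      exact h1.trans (mul_le_mul_of_nonneg_left hqy hM'.le)
    have hmain : X / (2 * M * y) ≤ psiLog1 X / (Nat.totient (M * q) : ℝ) := by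
      have : X / (2 * M * y) = (X / 2) / (M * y) := by
        field_simp
      rw [this]
      exact div_le_div₀ (by linarith) hpsi htpos' htle
    have habs := neg_abs_le (psiLogAP X (M * q) (r q) -
      psiLog1 X / (Nat.totient (M * q) : ℝ))
    linarith
  have hfin := sum_le_sum hterm
  rw [sum_sub_distrib, sum_const, nsmul_eq_mul] at hfin
  have hcard := h₃ X hX3
  rw [← hy] at hcard
  have hA : X / (8 * M * Real.log X) ≤ ((QQ δ X).card : ℝ) * (X / (2 * M * y)) := by
    calc X / (8 * M * Real.log X) = y / (4 * Real.log X) * (X / (2 * M * y)) := by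
          field_simp
          ring
      _ ≤ _ := mul_le_mul_of_nonneg_right hcard (by positivity)
  have hB : X / (Real.log X) ^ 2 ≤ X / (16 * M * Real.log X) := by
    apply div_le_div_of_nonneg_left hXpos.le (by positivity)
    rw [sq]
    exact mul_le_mul_of_nonneg_right hX4 hlog.le
  have hC : X / (8 * M * Real.log X) = 2 * (X / (16 * M * Real.log X)) := by
    field_simp
    ring
  linarith

end Pool.Agent.H992DD
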